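import Mathlib

namespace Pool.Agent.H.MP_ee92c9_pr

open MeasureTheory Set Function Filter Topology ENNReal Measure

lemma upd {ι Θ : Type} [DecidableEq ι] [MeasurableSpace Θ] (ν : Measure Θ) [IsProbabilityMeasure ν] (k : ι)
    {F : (ι → Θ) → ℝ≥0∞} (hF : Measurable F) : ∫⁻ u, F u ∂infinitePi (fun _ => ν) =
      ∫⁻ θ, ∫⁻ u, F (update u k θ) ∂infinitePi (fun _ => ν) ∂ν := by
  have hm : Measurable fun x : Θ × (ι → Θ) => update x.2 k x.1 := measurable_update'.comp measurable_swap
  have : (ν.prod (infinitePi fun _ : ι => ν)).map (fun x => update x.2 k x.1) = infinitePi fun _ => ν := by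
    refine eq_infinitePi _ fun s t ht => ?_
    rw [map_apply hm (.pi s.countable_toSet fun i _ => ht i)]
    by_cases h : k ∈ s
    · rw [show (fun x : Θ × (ι → Θ) => update x.2 k x.1) ⁻¹' Set.pi s t = t k ×ˢ Set.pi (s.erase k) t from ?_,
        prod_prod, infinitePi_pi _ fun i _ => ht i, Finset.mul_prod_erase s (fun i => ν (t i)) h]
      ext x
      simp only [mem_preimage, Set.mem_pi, mem_prod, Finset.mem_coe, Finset.mem_erase]
      exact ⟨fun g => ⟨by simpa using g k h, fun i hi => by simpa [hi.1] using g i hi.2⟩, fun g i hi => by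
        by_cases e : i = k
        · simpa [e] using g.1
        · simpa [e] using g.2 i ⟨e, hi⟩⟩
    · rw [show (fun x : Θ × (ι → Θ) => update x.2 k x.1) ⁻¹' Set.pi s t = univ ×ˢ Set.pi s t from ?_,
        prod_prod, infinitePi_pi _ fun i _ => ht i, measure_univ, one_mul]
      ext x
      simp only [mem_preimage, Set.mem_pi, mem_prod, Finset.mem_coe, mem_univ, true_and]
      exact forall₂_congr fun i hi => by rw [update_of_ne (fun e : i = k => h (e ▸ hi))]
  conv_lhs => rw [← this]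
  rw [lintegral_map hF hm]
  exact lintegral_prod _ (hF.comp hm).aemeasurable

variable {Θ : Type} [MeasurableSpace Θ] (L : ℕ) (φ : (ℕ → ℝ) → Θ → ℕ) (P Q : Measure ℝ)

def cell (k : ℤ) (s : ℝ) : Set ℝ := Ico s (s + (L : ℝ) ^ k)

noncomputable def ch (k : ℤ) (s : ℝ) (j : ℕ) : ℝ := s + j * (L : ℝ) ^ (k - 1)

noncomputable def ms (k : ℤ) (s : ℝ) (j : ℕ) : ℝ := P.real (cell L (k - 1) (ch L k s j))

noncomputable def Yd (u : ℤ → Θ) : ℕ → ℤ → ℝ → ℝ
  | 0, _, s => s
  | m + 1, k, s => Yd u m (k - 1) (ch L k s (φ (ms L P k s) (u k)))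

noncomputable def Y (k : ℤ) (s : ℝ) (u : ℤ → Θ) : ℝ := ⨆ m, Yd L φ P u m k s

structure Good (ν : Measure Θ) : Prop where
  two : 2 ≤ L
  meas : Measurable (uncurry φ)
  lt : ∀ a θ, φ a θ < L
  law : ∀ a : ℕ → ℝ, (∀ j, 0 ≤ a j) → ∀ j < L,
    .ofReal (∑ i ∈ Finset.range L, a i) * ν {θ | φ a θ = j} = .ofReal (a j)

variable {L φ P Q} {ν : Measure Θ}

lemma ind_sum (hL : 2 ≤ L) (k : ℤ) (s x : ℝ) : (cell L k s).indicator (1 : ℝ → ℝ≥0∞) x =
    ∑ j ∈ Finset.range L, (cell L (k - 1) (ch L k s j)).indicator 1 x := by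
  have h0 : (0 : ℝ) < L := by positivity
  have : ∀ n : ℕ, (Ico s (ch L k s n)).indicator (1 : ℝ → ℝ≥0∞) x =
      ∑ j ∈ Finset.range n, (cell L (k - 1) (ch L k s j)).indicator 1 x := fun n => by
    induction n with
    | zero => simp [ch]
    | succ n ih =>
      rw [Finset.sum_range_succ, ← ih, cell, show ch L k s (n + 1) = ch L k s n + L ^ (k - 1) by
        simp [ch, add_mul, add_assoc], ← Ico_union_Ico_eq_Ico (b := ch L k s n) (le_add_of_nonneg_right (by positivity))
        (le_add_of_nonneg_right (by positivity)), indicator_union_of_disjoint (Ico_disjoint_Ico_same ..)]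
  rw [← this, ch, mul_comm, ← zpow_add_one₀ h0.ne', sub_add_cancel, cell]

lemma cell_sum (hL : 2 ≤ L) (μ : Measure ℝ) (k : ℤ) (s : ℝ) {A : Set ℝ} (hA : MeasurableSet A) :
    μ (A ∩ cell L k s) = ∑ j ∈ Finset.range L, μ (A ∩ cell L (k - 1) (ch L k s j)) := by
  simp only [inter_comm A, cell, ← restrict_apply' hA, ← lintegral_indicator_one measurableSet_Ico]
  rw [← lintegral_finsetSum _ fun _ _ => measurable_one.indicator measurableSet_Ico]
  exact lintegral_congr fun x => ind_sum hL k s x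

variable [IsProbabilityMeasure P] [IsProbabilityMeasure Q] [IsProbabilityMeasure ν] (h : Good L φ ν)
include h

lemma law (k : ℤ) (s : ℝ) {j : ℕ} (hj : j < L) :
    P (cell L k s) * ν {θ | φ (ms L P k s) θ = j} = P (cell L (k - 1) (ch L k s j)) := by
  have := h.law (ms L P k s) (fun _ => measureReal_nonneg) j hj
  rw [ofReal_sum_of_nonneg (f := ms L P k s) fun _ _ => measureReal_nonneg] at this
  simp only [ms, ofReal_measureReal] at this
  simpa using (congrArg (· * _) (cell_sum h.two P k s .univ)).trans (by simpa using this)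

omit [IsProbabilityMeasure ν] in
lemma sumφ (a : ℕ → ℝ) (A : Set Θ) (G : ℕ → ℝ≥0∞) :
    ∫⁻ θ in A, G (φ a θ) ∂ν = ∑ j ∈ Finset.range L, ν ({θ | φ a θ = j} ∩ A) * G j := by
  have hm : ∀ j, MeasurableSet {θ | φ a θ = j} := fun j => h.meas.of_uncurry_left (measurableSet_singleton j)
  simp only [← restrict_apply (hm _), mul_comm _ (G _), ← lintegral_indicator_const (hm _)]
  rw [← lintegral_finsetSum _ fun _ _ => measurable_const.indicator (hm _)]
  exact lintegral_congr fun θ => by simp [indicator, h.lt]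

omit [IsProbabilityMeasure ν] [IsProbabilityMeasure P] in
lemma Yd_bd (u : ℤ → Θ) (m : ℕ) : ∀ k s, Yd L φ P u m k s ≤ Yd L φ P u (m + 1) k s ∧
    Yd L φ P u m k s ≤ s + (L : ℝ) ^ k := by
  have h0 : (0 : ℝ) < L := by have := h.two; positivity
  induction m with
  | zero => exact fun k s => ⟨le_add_of_nonneg_right (by positivity), le_add_of_nonneg_right (by positivity)⟩
  | succ m ih =>
    refine fun k s => ⟨(ih _ _).1, (ih _ _).2.trans ?_⟩
    have h1 : ((φ (ms L P k s) (u k) + 1 : ℕ) : ℝ) ≤ L := Nat.cast_le.2 (h.lt _ _)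
    have h2 : (L : ℝ) ^ k = L * L ^ (k - 1) := by rw [mul_comm, ← zpow_add_one₀ h0.ne', sub_add_cancel]
    push_cast at h1
    rw [h2, ch]
    nlinarith [zpow_pos h0 (k - 1)]

omit [IsProbabilityMeasure ν] [IsProbabilityMeasure P] in
lemma Y_mem (k : ℤ) (s : ℝ) (u : ℤ → Θ) : Y L φ P k s u ∈ Icc s (s + (L : ℝ) ^ k) :=
  ⟨le_ciSup_of_le ⟨_, forall_mem_range.2 fun m => (Yd_bd h u m k s).2⟩ 0 le_rfl, ciSup_le fun m => (Yd_bd h u m k s).2⟩

omit [IsProbabilityMeasure ν] [IsProbabilityMeasure P] in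
lemma Y_step (k : ℤ) (s : ℝ) (u : ℤ → Θ) : Y L φ P k s u = Y L φ P (k - 1) (ch L k s (φ (ms L P k s) (u k))) u :=
  le_antisymm (ciSup_le fun m => (Yd_bd h u m k s).1.trans
    (le_ciSup ⟨_, forall_mem_range.2 fun m => (Yd_bd h u m _ _).2⟩ m))
    (ciSup_le fun m => le_ciSup ⟨_, forall_mem_range.2 fun m => (Yd_bd h u m k s).2⟩ (m + 1))

omit h [IsProbabilityMeasure P] [MeasurableSpace Θ] in
lemma Y_upd {i k : ℤ} (hi : k < i) (s : ℝ) (u : ℤ → Θ) (θ : Θ) : Y L φ P k s (update u i θ) = Y L φ P k s u := by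
  have : ∀ m k s, k < i → Yd L φ P (update u i θ) m k s = Yd L φ P u m k s := fun m => by
    induction m with
    | zero => exact fun _ _ _ => rfl
    | succ m ih => exact fun k s hk => by rw [Yd, Yd, update_of_ne hk.ne, ih _ _ (by omega)]
  simp only [Y, this _ _ _ hi]

omit h in
lemma ms_meas (k : ℤ) : Measurable (ms L P k) := measurable_pi_lambda _ fun j =>
  (measurable_measure_prodMk_left (s := {x : ℝ × ℝ | ch L k x.1 j ≤ x.2 ∧ x.2 < ch L k x.1 j + (L : ℝ) ^ (k - 1)})
    (by unfold ch; measurability)).ennreal_toReal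

omit [IsProbabilityMeasure ν] in
lemma Y_meas (k : ℤ) : Measurable (uncurry (Y L φ P k)) := by
  have : ∀ m k, Measurable fun x : ℝ × (ℤ → Θ) => Yd L φ P x.2 m k x.1 := fun m => by
    induction m with
    | zero => exact fun _ => measurable_fst
    | succ m ih =>
      refine fun k => (ih (k - 1)).comp (f := fun x : ℝ × (ℤ → Θ) => (ch L k x.1 (φ (ms L P k x.1) (x.2 k)), x.2)) ?_
      have : Measurable fun x : ℝ × (ℤ → Θ) => (φ (ms L P k x.1) (x.2 k) : ℝ) := measurable_from_top.comp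
        (h.meas.comp (((ms_meas k).comp measurable_fst).prodMk (by fun_prop)))
      unfold ch
      fun_prop
  exact .iSup fun m => this m k

lemma rec2 (k : ℤ) (s : ℝ) {F : ℝ → ℝ → ℝ≥0∞} (hF : Measurable (uncurry F)) :
    ∫⁻ u, F (Y L φ P k s u) (Y L φ Q k s u) ∂infinitePi (fun _ => ν) = ∫⁻ θ, ∫⁻ u, F (Y L φ P (k - 1)
      (ch L k s (φ (ms L P k s) θ)) u) (Y L φ Q (k - 1) (ch L k s (φ (ms L Q k s) θ)) u) ∂infinitePi (fun _ => ν) ∂ν := by
  refine (upd ν k (hF.comp ((Y_meas h k).of_uncurry_left.prodMk (Y_meas h k).of_uncurry_left))).trans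
    (lintegral_congr fun θ => lintegral_congr fun u => ?_)
  rw [comp_apply, uncurry_apply_pair, Y_step h k, Y_step (P := Q) h k, Y_upd (by omega), Y_upd (by omega), update_self]

lemma lawY {F : Set ℝ} (hF : IsClosed F) (k : ℤ) (s : ℝ) :
    P (cell L k s) * infinitePi (fun _ => ν) (Y L φ P k s ⁻¹' F) ≤ P F := by
  have h0 : (1 : ℝ) < L := by exact_mod_cast h.two
  have : ∀ (m : ℕ) k s, P (cell L k s) * infinitePi (fun _ => ν) (Y L φ P k s ⁻¹' F) ≤
      P (Metric.cthickening (L ^ (k - m)) F ∩ cell L k s) := fun m => by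
    induction m with
    | zero =>
      intro k s
      rcases (Y L φ P k s ⁻¹' F).eq_empty_or_nonempty with e | ⟨u, hu⟩
      · simp [e]
      · refine (mul_le_of_le_one_right' prob_le_one).trans (measure_mono fun x hx => ⟨?_, hx⟩)
        refine Metric.mem_cthickening_of_dist_le x _ _ _ hu (abs_le.2 ?_)
        have := Y_mem (P := P) h k s u
        simp only [cell, mem_Ico, mem_Icc, Nat.cast_zero, sub_zero] at *
        constructor <;> linarith
    | succ m ih =>
      intro k s
      have e := fun k s => lintegral_indicator_one (μ := infinitePi fun _ => ν)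
        ((Y_meas (P := P) h k).of_uncurry_left (x := s) hF.measurableSet)
      have e2 := rec2 (P := P) (Q := P) h k s (F := fun x _ => F.indicator 1 x)
        ((measurable_one.indicator hF.measurableSet).comp measurable_fst)
      have e3 := sumφ h (ms L P k s) univ fun j => infinitePi (fun _ => ν) (Y L φ P (k - 1) (ch L k s j) ⁻¹' F)
      simp only [← e, restrict_univ, inter_univ] at e3 ⊢
      refine le_of_eq_of_le (congrArg _ (e2.trans e3)) ?_
      rw [cell_sum h.two P k s Metric.isClosed_cthickening.measurableSet, Finset.mul_sum]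
      refine Finset.sum_le_sum fun j hj => ?_
      rw [← mul_assoc, law h k s (Finset.mem_range.1 hj), e]
      exact (ih _ _).trans_eq (by rw [Nat.cast_succ, sub_sub, add_comm (1 : ℤ)])
  refine ge_of_tendsto' (x := atTop) ((tendsto_measure_cthickening_of_isClosed ⟨1, one_pos, measure_ne_top _ _⟩ hF).comp
    (f := fun m : ℕ => (L : ℝ) ^ (k - m)) ?_) fun m => (this m k s).trans (measure_mono inter_subset_left)
  simp only [zpow_sub₀ (zero_lt_one.trans h0).ne', zpow_natCast]
  exact (tendsto_pow_atTop_atTop_of_one_lt h0).const_div_atTop _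

end Pool.Agent.H.MP_ee92c9_pr
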