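import Pool.Agent.H.MP_ee92c9_pr.A

namespace Pool.Agent.H.MP_ee92c9_pr

open MeasureTheory Set Function Filter Topology ENNReal Measure

noncomputable def N (L : ℕ) (i : ℤ) (s x y : ℝ) : ℕ := (⌊(x - s) / (L : ℝ) ^ i⌋ - ⌊(y - s) / (L : ℝ) ^ i⌋).natAbs

noncomputable def Γ (L : ℕ) (g : ℤ → ℕ → ℕ → ℝ≥0∞) (k : ℤ) (s : ℝ) (z : ℝ × ℝ) : ℝ≥0∞ :=
  ∑' i : ℕ, g (k - i) (N L (k - i - 1) s z.1 z.2) (N L (k - i) s z.1 z.2)

noncomputable def ind2 (L : ℕ) (k : ℤ) (s : ℝ) (z : ℝ × ℝ) : ℝ≥0∞ :=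
  (cell L k s).indicator 1 z.1 + (cell L k s).indicator 1 z.2

variable {Θ : Type} [MeasurableSpace Θ] {L : ℕ} {φ : (ℕ → ℝ) → Θ → ℕ} {P Q : Measure ℝ} {ν : Measure Θ}
  {g : ℤ → ℕ → ℕ → ℝ≥0∞} {q : ℝ}

lemma N_ch (hL : 2 ≤ L) {i k : ℤ} (hi : i < k) (s x y : ℝ) (j : ℕ) : N L i (ch L k s j) x y = N L i s x y := by
  obtain ⟨n, rfl⟩ : ∃ n : ℕ, k = i + n + 1 := ⟨(k - i - 1).toNat, by omega⟩
  have h0 : (0 : ℝ) < L := by positivity
  have : ∀ x, (x - ch L (i + n + 1) s j) / (L : ℝ) ^ i = (x - s) / (L : ℝ) ^ i - (j * L ^ n : ℕ) := fun x => by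
    rw [ch, add_sub_cancel_right, zpow_add₀ h0.ne']
    push_cast
    field_simp
    simp only [zpow_natCast]
    ring
  simp only [N, this, Int.floor_sub_natCast, sub_sub_sub_cancel_right]

lemma N_meas (i : ℤ) : Measurable fun z : ℝ × ℝ × ℝ => N L i z.1 z.2.1 z.2.2 :=
  measurable_from_top.comp (by fun_prop : Measurable fun z : ℝ × ℝ × ℝ =>
    ⌊(z.2.1 - z.1) / (L : ℝ) ^ i⌋ - ⌊(z.2.2 - z.1) / (L : ℝ) ^ i⌋)

lemma g_meas (k i j : ℤ) : Measurable fun z : ℝ × ℝ × ℝ => g k (N L i z.1 z.2.1 z.2.2) (N L j z.1 z.2.1 z.2.2) :=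
  (measurable_of_countable (uncurry (g k))).comp ((N_meas i).prodMk (N_meas j))

lemma Γ_meas (k : ℤ) : Measurable (uncurry (Γ L g k)) := .ennreal_tsum fun _ => g_meas _ _ _

lemma ind2_meas (k : ℤ) (s : ℝ) : Measurable (ind2 L k s) :=
  ((measurable_one.indicator measurableSet_Ico).comp measurable_fst).add
    ((measurable_one.indicator measurableSet_Ico).comp measurable_snd)

lemma Γ_rec (hL : 2 ≤ L) (k : ℤ) (s : ℝ) (z : ℝ × ℝ) : ind2 L k s z * Γ L g k s z =
    ind2 L k s z * g k (N L (k - 1) s z.1 z.2) (N L k s z.1 z.2) +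
      ∑ j ∈ Finset.range L, ind2 L (k - 1) (ch L k s j) z * Γ L g (k - 1) (ch L k s j) z := by
  have : ∀ j, Γ L g (k - 1) (ch L k s j) z = Γ L g (k - 1) s z := fun j => tsum_congr fun i => by
    rw [N_ch hL (by omega), N_ch hL (by omega)]
  simp only [this, ← Finset.sum_mul, ind2, Finset.sum_add_distrib, ← ind_sum hL, ← mul_add]
  rw [Γ, tsum_eq_zero_add' ENNReal.summable, Γ]
  simp only [Nat.cast_zero, sub_zero, Nat.cast_succ, sub_sub, add_comm (1 : ℤ)]

variable (L φ ν g q) in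
/-- The one-step cost estimate. -/
def Loc : Prop := ∀ (P Q : Measure ℝ) (π : Measure (ℝ × ℝ)) [IsProbabilityMeasure π], π.fst = P → π.snd = Q → ∀ k s,
  min (P (cell L k s)) (Q (cell L k s)) * ∫⁻ θ in {θ | φ (ms L P k s) θ = φ (ms L Q k s) θ}ᶜ,
    .ofReal (((|(φ (ms L P k s) θ : ℝ) - φ (ms L Q k s) θ| + 1) * L ^ (k - 1)) ^ q) ∂ν ≤
      ∫⁻ z, ind2 L k s z * g k (N L (k - 1) s z.1 z.2) (N L k s z.1 z.2) ∂π

variable [IsProbabilityMeasure P] [IsProbabilityMeasure Q] [IsProbabilityMeasure ν] (h : Good L φ ν)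
include h

lemma cost (hq : 0 < q) (hg : Loc L φ ν g q) (π : Measure (ℝ × ℝ)) [IsProbabilityMeasure π] (hP : π.fst = P)
    (hQ : π.snd = Q) (k : ℤ) (s : ℝ) : min (P (cell L k s)) (Q (cell L k s)) *
      ∫⁻ u, .ofReal (|Y L φ P k s u - Y L φ Q k s u| ^ q) ∂infinitePi (fun _ => ν) ≤ 2 * ∫⁻ z, Γ L g k s z ∂π := by
  have h0 : (1 : ℝ) < L := by exact_mod_cast h.two
  have : ∀ (m : ℕ) k s, min (P (cell L k s)) (Q (cell L k s)) *
      ∫⁻ u, .ofReal (|Y L φ P k s u - Y L φ Q k s u| ^ q) ∂infinitePi (fun _ => ν) ≤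
        ∫⁻ z, ind2 L k s z * Γ L g k s z ∂π + P (cell L k s) * .ofReal ((L ^ (k - m)) ^ q) := fun m => by
    induction m with
    | zero =>
      refine fun k s => le_add_left (mul_le_mul' (min_le_left _ _) (lintegral_le_const (.of_forall fun u => ?_)))
      rw [Nat.cast_zero, sub_zero]
      have h1 := Y_mem (P := P) h k s u
      have h2 := Y_mem (P := Q) h k s u
      exact ofReal_le_ofReal (Real.rpow_le_rpow (abs_nonneg _) (abs_le.2 ⟨by linarith [h1.1, h2.2],
        by linarith [h1.2, h2.1]⟩) hq.le)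
    | succ m ih =>
      intro k s
      have hA : MeasurableSet {θ | φ (ms L P k s) θ = φ (ms L Q k s) θ} :=
        measurableSet_eq_fun h.meas.of_uncurry_left h.meas.of_uncurry_left
      rw [rec2 h k s (F := fun x y => .ofReal (|x - y| ^ q)) (by unfold uncurry; fun_prop),
        ← lintegral_add_compl _ hA, mul_add, add_comm]
      simp only [Γ_rec h.two k s]
      rw [lintegral_add_left (f := fun z => ind2 L k s z * g k (N L (k - 1) s z.1 z.2) (N L k s z.1 z.2))
        ((ind2_meas k s).mul ((g_meas k _ _).comp measurable_prodMk_left)), add_assoc]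
      refine add_le_add ((mul_le_mul_right (lintegral_mono fun θ => lintegral_le_const (.of_forall fun u => ?_)) _).trans
        (hg P Q π hP hQ k s)) ?_
      · have h1 := Y_mem (P := P) h (k - 1) (ch L k s (φ (ms L P k s) θ)) u
        have h2 := Y_mem (P := Q) h (k - 1) (ch L k s (φ (ms L Q k s) θ)) u
        have h3 := zpow_pos (zero_lt_one.trans h0) (k - 1)
        have h4 := mul_le_mul_of_nonneg_right (le_abs_self ((φ (ms L P k s) θ : ℝ) - φ (ms L Q k s) θ)) h3.le
        have h5 := mul_le_mul_of_nonneg_right (neg_abs_le ((φ (ms L P k s) θ : ℝ) - φ (ms L Q k s) θ)) h3.le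
        simp only [ch, mem_Icc] at h1 h2 ⊢
        exact ofReal_le_ofReal (Real.rpow_le_rpow (abs_nonneg _) (abs_le.2 ⟨by linarith, by linarith⟩) hq.le)
      · have e1 := sumφ h (ms L P k s) {θ | φ (ms L P k s) θ = φ (ms L Q k s) θ} fun j => ∫⁻ u, .ofReal
          (|Y L φ P (k - 1) (ch L k s j) u - Y L φ Q (k - 1) (ch L k s j) u| ^ q) ∂infinitePi (fun _ => ν)
        have e2 := cell_sum h.two P k s .univ
        simp only [univ_inter] at e2
        refine le_of_eq_of_le (congrArg _ ((setLIntegral_congr_fun hA fun θ (e : _ = _) => by rw [← e]).trans e1)) ?_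
        rw [lintegral_finsetSum (f := fun j z => ind2 L (k - 1) (ch L k s j) z * Γ L g (k - 1) (ch L k s j) z) _
          fun j _ => (ind2_meas _ _).mul (Γ_meas _).of_uncurry_left, Finset.mul_sum]
        conv_rhs => rw [e2, Finset.sum_mul, ← Finset.sum_add_distrib]
        refine Finset.sum_le_sum fun j hj => le_trans ?_ ((ih _ _).trans_eq (by rw [Nat.cast_succ, sub_sub, add_comm (1 : ℤ)]))
        rw [← mul_assoc, ← law h k s (Finset.mem_range.1 hj), ← law h k s (Finset.mem_range.1 hj)]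
        exact mul_le_mul_left (le_min (mul_le_mul' (min_le_left _ _) (measure_mono inter_subset_left))
          (mul_le_mul' (min_le_right _ _) (measure_mono fun θ e => e.2.symm.trans e.1))) _
  have h1 : Tendsto (fun m : ℕ => ENNReal.ofReal (((L : ℝ) ^ (k - m)) ^ q)) atTop (𝓝 0) := by
    simp only [zpow_sub₀ (zero_lt_one.trans h0).ne', zpow_natCast]
    simpa using tendsto_ofReal (((tendsto_pow_atTop_atTop_of_one_lt h0).const_div_atTop _).rpow_const_nhds_zero hq)
  refine ge_of_tendsto' (by simpa using h1.const_add (2 * ∫⁻ z, Γ L g k s z ∂π)) fun m => (this m k s).trans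
    (add_le_add ?_ (mul_le_of_le_one_left' prob_le_one))
  rw [← lintegral_const_mul _ (Γ_meas k).of_uncurry_left]
  exact lintegral_mono fun z => mul_le_mul_left ((add_le_add (indicator_le_self _ _ _) (indicator_le_self _ _ _)).trans_eq
    one_add_one_eq_two) _

omit [IsProbabilityMeasure P] [IsProbabilityMeasure ν] in
lemma cell_mono {s : ℕ → ℝ} {d : ℕ → ℕ} (hd : ∀ n, d n < L) (hs : ∀ n : ℕ, ch L (n + 1) (s (n + 1)) (d n) = s n) :
    Monotone fun n : ℕ => cell L n (s n) := monotone_nat_of_le_succ fun n => by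
  have h0 : (0 : ℝ) < L := by have := h.two; positivity
  have h1 : ((d n + 1 : ℕ) : ℝ) ≤ L := Nat.cast_le.2 (hd n)
  rw [← hs n]
  refine Ico_subset_Ico (le_add_of_nonneg_right (by positivity)) ?_
  push_cast at h1 ⊢
  rw [ch, add_sub_cancel_right, zpow_add_one₀ h0.ne']
  nlinarith [zpow_pos h0 n]

section
variable {s : ℕ → ℝ} {d : ℕ → ℕ} (hd : ∀ n, d n < L) (hs : ∀ n : ℕ, ch L (n + 1) (s (n + 1)) (d n) = s n)
  (hu : ∀ x, ∃ n : ℕ, x ∈ cell L n (s n))
include hd hs hu

omit [IsProbabilityMeasure ν] in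
lemma cell_lim : Tendsto (fun n : ℕ => P (cell L n (s n))) atTop (𝓝 1) := by
  simpa [iUnion_eq_univ_iff.2 hu, comp_def] using tendsto_measure_iUnion_atTop (μ := P) (cell_mono h hd hs)

lemma ev : ∀ᵐ u ∂infinitePi (fun _ => ν), ∀ᶠ n : ℕ in atTop,
    Y L φ P n (s n) u = liminf (fun n : ℕ => Y L φ P n (s n) u) atTop := by
  let A : ℕ → Set Θ := fun n => {θ | φ (ms L P (n + 1) (s (n + 1))) θ = d n}
  have hA : ∀ n, MeasurableSet (A n) := fun n => h.meas.of_uncurry_left (measurableSet_singleton _)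
  have h1 : ∀ n : ℕ, ∑ i ∈ Finset.range n, P (cell L (i + 1) (s (i + 1))) * ν (A i)ᶜ ≤ P (cell L n (s n)) := fun n => by
    induction n with
    | zero => simp
    | succ n ih =>
      have := law (P := P) h (n + 1) (s (n + 1)) (hd n)
      rw [hs, add_sub_cancel_right] at this
      rw [Finset.sum_range_succ]
      refine (add_le_add_left (ih.trans_eq this.symm) _).trans_eq ?_
      rw [← mul_add, prob_add_prob_compl (hA n), mul_one, Nat.cast_succ]
  have h2 := ae_eventually_notMem (μ := infinitePi fun _ : ℤ => ν) (s := fun n : ℕ =>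
    {u | 2⁻¹ ≤ P (cell L (n + 1) (s (n + 1))) ∧ u (n + 1) ∈ (A n)ᶜ}) (ne_top_of_le_ne_top ofNat_ne_top
      (tsum_le_of_sum_range_le (c := 2) fun n => le_trans (Finset.sum_le_sum fun i _ => ?_) ((Finset.mul_sum ..).ge.trans
        (mul_le_of_le_one_right' ((h1 n).trans prob_le_one)))))
  · filter_upwards [h2] with u h3
    have h4 := (tendsto_add_atTop_iff_nat 1).2 (cell_lim (P := P) h hd hs hu)
    obtain ⟨n, hn⟩ := eventually_atTop.1 (h3.and (h4.eventually_const_le (show (2⁻¹ : ℝ≥0∞) < 1 by norm_num)))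
    have h5 : ∀ᶠ m : ℕ in atTop, Y L φ P m (s m) u = Y L φ P n (s n) u := eventually_atTop.2 ⟨n, fun m hm => by
      induction m, hm using Nat.le_induction with
      | base => rfl
      | succ m hm ih =>
        have h6 : φ (ms L P (m + 1) (s (m + 1))) (u (m + 1)) = d m := by
          by_contra e
          exact (hn m hm).1 ⟨(hn m hm).2, e⟩
        rw [Y_step h, Nat.cast_succ, h6, hs, add_sub_cancel_right, ih]⟩
    rwa [(tendsto_const_nhds.congr' (EventuallyEq.symm h5)).liminf_eq]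
  · by_cases e : 2⁻¹ ≤ P (cell L (i + 1) (s (i + 1)))
    · simp only [e, true_and]
      refine ((measurePreserving_eval_infinitePi _ _).measure_preimage (hA i).compl.nullMeasurableSet).trans_le ?_
      rw [← mul_assoc]
      exact le_mul_of_one_le_left' ((ENNReal.mul_inv_cancel two_ne_zero ofNat_ne_top).ge.trans (mul_le_mul_right e _))
    · simp [e]

lemma fatou {F : ℝ → ℝ → ℝ≥0∞} (hF : Measurable (uncurry F)) : ∫⁻ u, F (liminf (fun n : ℕ => Y L φ P n (s n) u) atTop)
    (liminf (fun n : ℕ => Y L φ Q n (s n) u) atTop) ∂infinitePi (fun _ => ν) ≤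
      liminf (fun n : ℕ => min (P (cell L n (s n))) (Q (cell L n (s n))) *
        ∫⁻ u, F (Y L φ P n (s n) u) (Y L φ Q n (s n) u) ∂infinitePi (fun _ => ν)) atTop := by
  have hm := fun n : ℕ => hF.comp ((Y_meas (P := P) h n).of_uncurry_left (x := s n) |>.prodMk
    ((Y_meas (P := Q) h n).of_uncurry_left (x := s n)))
  refine le_trans (lintegral_congr_ae ?_).le ((lintegral_liminf_le fun n : ℕ => (hm n).const_mul
    (min (P (cell L n (s n))) (Q (cell L n (s n))))).trans_eq (by simp only [lintegral_const_mul _ (hm _)]; rfl))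
  filter_upwards [ev (P := P) h hd hs hu, ev (P := Q) h hd hs hu] with u h1 h2
  have := ENNReal.Tendsto.mul_const (b := F (liminf (fun n : ℕ => Y L φ P n (s n) u) atTop)
    (liminf (fun n : ℕ => Y L φ Q n (s n) u) atTop)) ((cell_lim (P := P) h hd hs hu).min (cell_lim (P := Q) h hd hs hu))
    (.inl (by simp))
  rw [min_self, one_mul] at this
  refine (this.congr' ?_).liminf_eq.symm
  filter_upwards [h1, h2] with n a b
  rw [← a, ← b]
  rfl

end

end Pool.Agent.H.MP_ee92c9_pr
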