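import Pool.Agent.H.MP_ee92c9_pr.B

namespace Pool.Agent.H.MP_ee92c9_pr

open MeasureTheory Set Function Filter Topology ENNReal Measure

variable {Θ : Type} [MeasurableSpace Θ] {L : ℕ} {φ : (ℕ → ℝ) → Θ → ℕ} {ν : Measure Θ} {q : ℝ}

lemma N_int (hL : 2 ≤ L) {n : ℕ} {i : ℤ} (hi : i ≤ n) (x y : ℝ) :
    ∫⁻ τ in cell L n 0, N L i (-τ) x y = L ^ n * .ofReal (|x - y| / L ^ i) := by
  wlog hxy : y ≤ x generalizing x y
  · rw [abs_sub_comm, ← this y x (le_of_not_ge hxy)]
    simp only [N, ← Int.natAbs_neg (_ - ⌊(y - _) / _⌋), neg_sub]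
  have h0 : (0 : ℝ) < L := by positivity
  have hl := zpow_pos h0 i
  have hp : Periodic (fun σ : ℝ => Int.fract (σ / L ^ i)) (L ^ n) := fun σ => by
    obtain ⟨m, e⟩ : ∃ m : ℕ, (n : ℤ) = i + m := ⟨(n - i).toNat, by omega⟩
    beta_reduce
    rw [add_div, ← zpow_natCast, e, zpow_add₀ h0.ne', mul_div_cancel_left₀ _ hl.ne', zpow_natCast, ← Nat.cast_pow,
      Int.fract_add_natCast]
  have hI : ∀ x : ℝ, IntervalIntegrable (fun τ => Int.fract ((x + τ) / L ^ i)) volume 0 (L ^ n) := fun x =>
    (intervalIntegrable_const (c := (1 : ℝ))).mono_fun' (Measurable.aestronglyMeasurable (by fun_prop))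
      (.of_forall fun τ => by simp [abs_of_nonneg, (Int.fract_lt_one _).le])
  have h1 : ∀ τ, (N L i (-τ) x y : ℝ) = (x - y) / L ^ i - Int.fract ((x + τ) / L ^ i) + Int.fract ((y + τ) / L ^ i) :=
    fun τ => by
      rw [N, Nat.cast_natAbs, abs_of_nonneg (sub_nonneg.2 (Int.floor_le_floor (by gcongr)))]
      simp only [Int.fract, sub_neg_eq_add]
      push_cast
      ring
  have h2 := ((intervalIntegrable_const (c := (x - y) / L ^ i)).sub (hI x)).add (hI y)
  simp only [← ofReal_natCast (N ..), h1, cell, zpow_natCast, zero_add]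
  rw [setLIntegral_congr Ico_ae_eq_Ioc, ← ofReal_integral_eq_lintegral_ofReal h2.1 (.of_forall fun τ => by
    simp [← h1]), ← intervalIntegral.integral_of_le (by positivity), intervalIntegral.integral_add
    (intervalIntegrable_const.sub (hI x)) (hI y), intervalIntegral.integral_sub intervalIntegrable_const (hI x),
    intervalIntegral.integral_comp_add_left (fun σ => Int.fract (σ / L ^ i)),
    intervalIntegral.integral_comp_add_left (fun σ => Int.fract (σ / L ^ i)), add_zero, add_zero,
    hp.intervalIntegral_add_eq x y, sub_add_cancel, abs_of_nonneg (sub_nonneg.2 hxy)]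
  rw [intervalIntegral.integral_const, sub_zero, smul_eq_mul, ofReal_mul (by positivity), ofReal_pow h0.le,
    ofReal_natCast]

variable (L φ) in
noncomputable def tt (ω : (ℕ → Θ) × ℝ) (n : ℕ) : ℝ := ω.2 + ∑ j ∈ Finset.range n, φ 1 (ω.1 j) * (L : ℝ) ^ j

variable (ν) in
noncomputable def μG : Measure ((ℕ → Θ) × ℝ) := (infinitePi fun _ => ν).prod (volume.restrict (Ico 0 1))

variable [IsProbabilityMeasure ν]

instance : IsProbabilityMeasure (μG ν) := ⟨by simp [μG, ← univ_prod_univ]⟩

variable (h : Good L φ ν)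
include h

omit [IsProbabilityMeasure ν] in
lemma tt_meas (n : ℕ) : Measurable fun ω => tt L φ ω n := by
  have : Measurable fun θ => (φ 1 θ : ℝ) := measurable_from_top.comp h.meas.of_uncurry_left
  exact measurable_snd.add (Finset.measurable_sum _ fun j _ => (this.comp (by fun_prop)).mul_const _)

lemma tlaw {g : ℝ → ℝ≥0∞} (hg : Measurable g) (n : ℕ) : ∀ a,
    L ^ n * ∫⁻ ω, g (a + tt L φ ω n) ∂μG ν = ∫⁻ x in cell L n a, g x := by
  have hm : ∀ n a, Measurable fun ω => g (a + tt L φ ω n) := fun n a => hg.comp ((tt_meas h n).const_add a)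
  induction n with
  | zero =>
    intro a
    rw [μG, lintegral_prod _ (hm 0 a).aemeasurable, cell, ← (measurePreserving_add_left volume a).setLIntegral_comp_preimage
      measurableSet_Ico hg]
    simp [tt, cell]
  | succ n ih =>
    intro a
    have e1 := cell_sum h.two (volume.withDensity g) (n + 1) a .univ
    simp only [univ_inter, cell, withDensity_apply _ measurableSet_Ico, add_sub_cancel_right] at e1 ih
    simp only [← ih, μG, fun a => lintegral_prod _ (hm n a).aemeasurable] at e1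
    have e2 := sumφ h 1 univ fun j => ∫⁻ v, ∫⁻ s in Ico 0 1, g (ch L (n + 1) a j + tt L φ (v, s) n) ∂volume
      ∂infinitePi fun _ => ν
    rw [μG, lintegral_prod _ (hm _ a).aemeasurable, upd ν n (hm _ a).lintegral_prod_right', cell, Nat.cast_succ, e1]
    rw [restrict_univ] at e2
    refine (congrArg _ ((lintegral_congr fun θ => lintegral_congr fun v => lintegral_congr fun s => ?_).trans e2)).trans ?_
    · simp only [comp_apply, tt, ch, Finset.sum_range_succ, update_self, add_sub_cancel_right, zpow_natCast]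
      rw [Finset.sum_congr rfl fun j hj => by rw [update_of_ne (Finset.mem_range.1 hj).ne]]
      congr 1
      ring
    · rw [Finset.mul_sum]
      refine Finset.sum_congr rfl fun j hj => ?_
      have := h.law 1 (fun _ => zero_le_one) j (Finset.mem_range.1 hj)
      simp only [Pi.one_apply, Finset.sum_const, Finset.card_range, nsmul_eq_mul, mul_one, ofReal_natCast,
        ofReal_one] at this
      rw [inter_univ, pow_succ, mul_assoc, ← mul_assoc (L : ℝ≥0∞), this, one_mul, lintegral_prod _ (hm n _).aemeasurable]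

lemma EN {n : ℕ} {i : ℤ} (hi : i ≤ n) (x y : ℝ) : ∫⁻ ω, N L i (-tt L φ ω n) x y ∂μG ν = .ofReal (|x - y| / L ^ i) := by
  have := tlaw h (g := fun τ => N L i (-τ) x y) (measurable_from_top.comp ((N_meas i).comp
    (measurable_neg.prodMk (measurable_const (a := (x, y)))))) n 0
  rw [N_int h.two hi] at this
  simp only [zero_add] at this
  exact (ENNReal.mul_right_inj (by have := h.two; positivity) (by simp)).1 this

lemma grid : ∀ᵐ ω ∂μG ν, ∀ x, ∃ n : ℕ, x ∈ cell L n (-tt L φ ω n) := by
  have h0 : (1 : ℝ) < L := by exact_mod_cast h.two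
  have h1 : ∀ x : ℝ, ∀ᵐ ω ∂μG ν, ∃ n : ℕ, x ∈ cell L n (-tt L φ ω n) := fun x => by
    have h2 : Tendsto (fun n : ℕ => ENNReal.ofReal (|x - 0| / L ^ (n : ℤ))) atTop (𝓝 0) := by
      simpa using tendsto_ofReal ((tendsto_pow_atTop_atTop_of_one_lt h0).const_div_atTop |x|)
    refine nonpos_iff_eq_zero.1 (ge_of_tendsto' h2 fun n => ?_)
    have hA : MeasurableSet {τ : ℝ | x ∈ cell L n (-τ)}ᶜ := by unfold cell; measurability
    refine (measure_mono (t := (fun ω => tt L φ ω n) ⁻¹' {τ | x ∈ cell L n (-τ)}ᶜ) fun ω (e : ¬ _) e' => e ⟨n, e'⟩).trans ?_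
    rw [← ENNReal.mul_le_mul_iff_right (a := L ^ n) (by have := h.two; positivity) (by simp), ← N_int h.two le_rfl,
      ← lintegral_indicator_one (tt_meas h n hA)]
    have := tlaw h (measurable_one.indicator hA) n 0
    simp only [zero_add] at this
    refine this.trans_le (setLIntegral_mono' measurableSet_Ico fun τ e => indicator_apply_le' (fun e' => ?_) (by simp))
    simp only [cell, zero_add, mem_Ico, mem_compl_iff, mem_setOf] at e e'
    have h3 := zpow_pos (zero_lt_one.trans h0) n
    rw [Pi.one_apply, Nat.one_le_cast, N, Int.floor_eq_zero_iff.2 (show (0 - -τ) / _ ∈ Ico 0 1 from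
      ⟨div_nonneg (by linarith) h3.le, (div_lt_one h3).2 (by linarith)⟩), sub_zero, Nat.one_le_iff_ne_zero,
      Int.natAbs_ne_zero, Ne, Int.floor_eq_zero_iff]
    exact fun c => e' ⟨by linarith [nonneg_of_mul_nonneg_left c.1 (inv_pos.2 h3)], by linarith [(div_lt_one h3).1 c.2]⟩
  filter_upwards [ae_all_iff.2 fun z : ℤ => h1 z] with ω h2 x
  obtain ⟨a, ha⟩ := h2 ⌊x⌋
  obtain ⟨b, hb⟩ := h2 ⌈x⌉
  have hm := cell_mono h (s := fun n => -tt L φ ω n) (fun n => h.lt 1 (ω.1 n)) fun n => by
    simp [ch, tt, Finset.sum_range_succ]; ring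
  exact ⟨max a b, (hm (le_max_left a b) ha).1.trans (Int.floor_le x), (Int.le_ceil x).trans_lt (hm (le_max_right a b) hb).2⟩

theorem main [StandardBorelSpace Θ] (hq : 0 < q) {A B : ℤ → ℝ≥0∞} {M K : ℝ≥0∞}
    (hg : Loc L φ ν (fun k a b => A k * min M a + B k * min 1 (b : ℝ≥0∞)) q) (hK : ∀ d : ℝ, 0 ≤ d → ∑' k : ℤ,
      (A k * min M (.ofReal (d / L ^ (k - 1))) + B k * min 1 (.ofReal (d / L ^ k))) ≤ K * .ofReal (d ^ q)) :
    ∃ X : Measure ℝ → unitInterval → ℝ, (∀ P, IsProbabilityMeasure P → Measurable (X P) ∧ volume.map (X P) = P) ∧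
      ∀ (π : Measure (ℝ × ℝ)) [IsProbabilityMeasure π], ∫⁻ u, .ofReal (|X π.fst u - X π.snd u| ^ q) ≤
        2 * K * ∫⁻ z, .ofReal (|z.1 - z.2| ^ q) ∂π := by
  have := nonempty_of_isProbabilityMeasure ν
  obtain ⟨f, hf, e⟩ := ((μG ν).prod (infinitePi fun _ : ℤ => ν)).exists_measurable_map_eq
  let X : Measure ℝ → ((ℕ → Θ) × ℝ) × (ℤ → Θ) → ℝ := fun P ω =>
    liminf (fun n : ℕ => Y L φ P n (-tt L φ ω.1 n) ω.2) atTop
  have hX : ∀ P [IsProbabilityMeasure P], Measurable (X P) := fun P _ => .liminf fun n =>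
    (Y_meas h n).comp (((tt_meas h n).comp measurable_fst).neg.prodMk measurable_snd)
  have hF : ∀ P Q [IsProbabilityMeasure P] [IsProbabilityMeasure Q] {F : ℝ → ℝ → ℝ≥0∞}, Measurable (uncurry F) →
      ∫⁻ u, F (X P (f u)) (X Q (f u)) ≤ ∫⁻ ω, liminf (fun n : ℕ => min (P (cell L n (-tt L φ ω n)))
        (Q (cell L n (-tt L φ ω n))) * ∫⁻ u, F (Y L φ P n (-tt L φ ω n) u) (Y L φ Q n (-tt L φ ω n) u)
          ∂infinitePi (fun _ => ν)) atTop ∂μG ν := fun P Q _ _ F hF => by
    have hm := hF.comp ((hX P).prodMk (hX Q))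
    refine (lintegral_map hm hf).ge.trans ?_
    rw [e, lintegral_prod _ hm.aemeasurable]
    refine lintegral_mono_ae ?_
    filter_upwards [grid h] with ω hω
    exact fatou h (fun n => h.lt 1 (ω.1 n)) (fun n => by simp [ch, tt, Finset.sum_range_succ]; ring) hω hF
  refine ⟨fun P => X P ∘ f, fun P _ => ⟨(hX P).comp hf, ?_⟩, fun π _ => ?_⟩
  · have := isProbabilityMeasure_map (μ := volume) ((hX P).comp hf).aemeasurable
    refine eq_of_le_of_isProbabilityMeasure (le_iff.2 fun S hS => ?_)
    rw [hS.measure_eq_iSup_isClosed_of_ne_top (measure_ne_top _ _)]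
    refine iSup_le fun F => iSup₂_le fun h1 h2 => le_trans ?_ (measure_mono h1)
    rw [map_apply ((hX P).comp hf) h2.measurableSet, ← lintegral_indicator_one ((hX P).comp hf h2.measurableSet)]
    refine (hF P P (F := fun x _ => F.indicator 1 x) ((measurable_one.indicator h2.measurableSet).comp
      measurable_fst)).trans (lintegral_le_const (.of_forall fun ω => liminf_le_of_frequently_le' (.of_forall fun n => ?_)))
    rw [min_self]
    exact (congrArg _ (lintegral_indicator_one ((Y_meas h n).of_uncurry_left h2.measurableSet))).trans_le (lawY h h2 _ _)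
  · have hm := fun n : ℕ => (Γ_meas (L := L) (g := fun k a b => A k * min M a + B k * min 1 (b : ℝ≥0∞)) n).comp
      (((tt_meas h n).comp measurable_fst).neg.prodMk (measurable_snd (β := ℝ × ℝ)))
    refine (hF _ _ (F := fun x y => .ofReal (|x - y| ^ q)) (by unfold uncurry; fun_prop)).trans ((lintegral_mono
      fun ω => liminf_le_liminf (.of_forall fun n => cost h hq hg π rfl rfl _ _)).trans ((lintegral_liminf_le fun n =>
      (hm n).lintegral_prod_right'.const_mul 2).trans (liminf_le_of_frequently_le' (.of_forall fun n => ?_))))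
    rw [lintegral_const_mul _ (hm n).lintegral_prod_right', mul_assoc, ← lintegral_const_mul K (by fun_prop)]
    refine mul_le_mul_right ((lintegral_lintegral_swap (f := fun ω z => Γ L _ n (-tt L φ ω n) z) (hm n).aemeasurable).trans_le (lintegral_mono fun z => ?_)) _
    have hN : ∀ c i, Measurable fun ω => min c (N L i (-tt L φ ω n) z.1 z.2 : ℝ≥0∞) := fun c i =>
      measurable_const.min (measurable_from_top.comp ((N_meas (L := L) i).comp
        ((tt_meas h n).neg.prodMk (measurable_const (a := z)))))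
    have h1 : ∀ c c' (i : ℤ), i ≤ n → ∫⁻ ω, c' * min c (N L i (-tt L φ ω n) z.1 z.2 : ℝ≥0∞) ∂μG ν ≤
        c' * min c (.ofReal (|z.1 - z.2| / L ^ i)) := fun c c' i hi => by
      rw [lintegral_const_mul _ (hN _ _)]
      exact mul_le_mul_right (le_min (lintegral_le_const (.of_forall fun _ => min_le_left _ _))
        ((lintegral_mono fun _ => min_le_right _ _).trans_eq (EN h hi _ _))) _
    refine le_trans ?_ ((tsum_comp_le_tsum_of_injective (f := fun i : ℕ => (n : ℤ) - i) (fun _ _ e => by simpa using e)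
      _).trans (hK _ (abs_nonneg (z.1 - z.2))))
    simp only [Γ]
    rw [lintegral_tsum fun i => (Measurable.fun_add ((hN _ _).const_mul _) ((hN _ _).const_mul _)).aemeasurable]
    refine ENNReal.tsum_le_tsum fun i => ?_
    rw [lintegral_add_left ((hN _ _).const_mul _)]
    exact add_le_add (h1 _ _ _ (by omega)) (h1 _ _ _ (by omega))

end Pool.Agent.H.MP_ee92c9_pr
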