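import Pool.Agent.H.MP_ee92c9_pr.C

namespace Pool.Agent.H.MP_ee92c9_pr

open MeasureTheory Set Function Filter Topology ENNReal Measure

variable {L : ℕ} {q : ℝ}

lemma law_of_le {Θ : Type} [MeasurableSpace Θ] {ν : Measure Θ} [IsProbabilityMeasure ν] {f : Θ → ℕ} (hf : Measurable f)
    (hl : ∀ θ, f θ < L) {a : ℕ → ℝ} (ha : ∀ j, 0 ≤ a j) (h : 0 < ∑ i ∈ Finset.range L, a i → ∀ j < L,
      .ofReal (a j / ∑ i ∈ Finset.range L, a i) ≤ ν {θ | f θ = j}) :
    ∀ j < L, .ofReal (∑ i ∈ Finset.range L, a i) * ν {θ | f θ = j} = .ofReal (a j) := fun j hj => by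
  rcases (Finset.sum_nonneg fun i _ => ha i : 0 ≤ ∑ i ∈ Finset.range L, a i).eq_or_lt with e | e
  · rw [← e, (Finset.sum_eq_zero_iff_of_nonneg fun i _ => ha i).1 e.symm j (Finset.mem_range.2 hj)]
    simp
  have h1 : ∑ j ∈ Finset.range L, ν.real {θ | f θ = j} = 1 := by
    refine (sum_measureReal_preimage_singleton _ fun j _ => hf (measurableSet_singleton j)).trans ?_
    rw [show f ⁻¹' Finset.range L = univ from eq_univ_of_forall fun θ => by simp [hl], probReal_univ]
  have h2 := (Finset.sum_eq_sum_iff_of_le fun j hj => (ofReal_le_iff_le_toReal (measure_ne_top _ _)).1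
    (h e j (Finset.mem_range.1 hj))).1 (by rw [← Finset.sum_div, div_self e.ne']; exact h1.symm) j (Finset.mem_range.2 hj)
  rw [← ofReal_toReal (measure_ne_top ν _), ← h2, ← ofReal_mul e.le, mul_div_cancel₀ _ e.ne']

lemma mn {S T a b : ℝ} (hS : 0 < S) (hT : 0 < T) (ha : 0 ≤ a) (hb : 0 ≤ b) :
    min S T * |a / S - b / T| ≤ |a - b| + |S - T| * (a / S + b / T) := by
  wlog h : S ≤ T generalizing S T a b
  · have := this hT hS hb ha (le_of_not_ge h)
    rwa [min_comm, abs_sub_comm, abs_sub_comm b, abs_sub_comm T, add_comm (b / T)] at this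
  rw [min_eq_left h, ← abs_of_pos hS, ← abs_mul, abs_of_pos hS,
    show S * (a / S - b / T) = a - b + -(S - T) * (b / T) by field_simp; ring]
  refine (abs_add_le _ _).trans (add_le_add_right ?_ _)
  rw [abs_mul, abs_neg, abs_of_nonneg (by positivity : 0 ≤ b / T)]
  gcongr
  exact le_add_of_nonneg_left (by positivity)

open Classical in
noncomputable def dif (A : Set ℝ) (z : ℝ × ℝ) : ℝ≥0∞ := if (z.1 ∈ A ↔ z.2 ∈ A) then 0 else 1

lemma dif_eq (A : Set ℝ) : dif A = (symmDiff (Prod.fst ⁻¹' A) (Prod.snd ⁻¹' A)).indicator 1 := funext fun z => by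
  by_cases h : z.1 ∈ A <;> by_cases h' : z.2 ∈ A <;> simp [dif, mem_symmDiff, h, h']

lemma aux (π : Measure (ℝ × ℝ)) [IsProbabilityMeasure π] (n : ℕ) (a b : ℕ → ℝ) {C : Set ℝ} (hC : MeasurableSet C)
    {c : ℕ} : ENNReal.ofReal (∑ i ∈ Finset.range n, |π.fst.real (Ico (a i) (b i)) - π.snd.real (Ico (a i) (b i))| +
      c * |π.fst.real C - π.snd.real C|) ≤ ∫⁻ z, ∑ i ∈ Finset.range n, dif (Ico (a i) (b i)) z + c * dif C z ∂π := by
  have h1 : ∀ A, MeasurableSet A → Measurable (dif A) ∧ .ofReal |π.fst.real A - π.snd.real A| ≤ ∫⁻ z, dif A z ∂π :=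
    fun A hA => by
      have h2 := (measurable_fst (β := ℝ) hA).symmDiff (measurable_snd hA)
      rw [dif_eq, lintegral_indicator_one h2, Measure.real, fst_apply hA, Measure.real, snd_apply hA]
      exact ⟨measurable_one.indicator h2, ofReal_le_of_le_toReal (abs_measureReal_sub_le_measureReal_symmDiff
        (measurable_fst hA).nullMeasurableSet (measurable_snd hA).nullMeasurableSet)⟩
  rw [lintegral_add_right _ ((h1 C hC).1.const_mul _), lintegral_const_mul _ (h1 C hC).1,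
    lintegral_finsetSum _ fun i _ => (h1 _ measurableSet_Ico).1, ofReal_add (by positivity) (by positivity),
    ofReal_sum_of_nonneg fun _ _ => abs_nonneg _, ofReal_mul (by positivity), ofReal_natCast]
  exact add_le_add (Finset.sum_le_sum fun i _ => (h1 _ measurableSet_Ico).2) (mul_le_mul_right (h1 C hC).2 _)

lemma mem_cell (hL : 2 ≤ L) {k : ℤ} {s x : ℝ} : x ∈ cell L k s ↔ ⌊(x - s) / (L : ℝ) ^ k⌋ = 0 := by
  have h3 : 0 < (L : ℝ) ^ k := by positivity
  rw [Int.floor_eq_zero_iff, mem_Ico, div_lt_one h3, le_div_iff₀ h3, cell, mem_Ico, zero_mul, sub_nonneg, sub_lt_iff_lt_add']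

lemma dif_le (hL : 2 ≤ L) (k : ℤ) (s : ℝ) (z : ℝ × ℝ) :
    dif (cell L k s) z ≤ ind2 L k s z * min 1 (N L k s z.1 z.2 : ℝ≥0∞) := by
  by_cases h : z.1 ∈ cell L k s <;> by_cases h' : z.2 ∈ cell L k s <;> simp only [dif, ind2, h, h'] <;>
    simp only [mem_cell hL] at h h' <;> simp [indicator, mem_cell hL, N, h, h', Nat.one_le_iff_ne_zero]

lemma ms_sum (hL : 2 ≤ L) (P : Measure ℝ) [IsFiniteMeasure P] (k : ℤ) (s : ℝ) (n : ℕ) :
    ∑ j ∈ Finset.range n, ms L P k s j = P.real (Ico s (ch L k s n)) := by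
  induction n with
  | zero => simp [ch]
  | succ n ih =>
    rw [Finset.sum_range_succ, ih, ms, cell, ← measureReal_union (Ico_disjoint_Ico_same ..) measurableSet_Ico,
      Ico_union_Ico_eq_Ico (b := ch L k s n) (le_add_of_nonneg_right (by positivity))
        (le_add_of_nonneg_right (by positivity))]
    simp [ch, add_mul, add_assoc]

lemma ch_top (hL : 2 ≤ L) (k : ℤ) (s : ℝ) : Ico s (ch L k s L) = cell L k s := by
  rw [ch, mul_comm, ← zpow_add_one₀ (by positivity), sub_add_cancel, cell]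

lemma min_cell (hL : 2 ≤ L) (P Q : Measure ℝ) [IsFiniteMeasure P] [IsFiniteMeasure Q] (k : ℤ) (s : ℝ) {X Z : ℝ≥0∞}
    (h : 0 < ∑ j ∈ Finset.range L, ms L P k s j → 0 < ∑ j ∈ Finset.range L, ms L Q k s j →
      .ofReal (min (∑ j ∈ Finset.range L, ms L P k s j) (∑ j ∈ Finset.range L, ms L Q k s j)) * X ≤ Z) :
    min (P (cell L k s)) (Q (cell L k s)) * X ≤ Z := by
  simp only [ms_sum hL, ch_top hL, ofReal_min, ofReal_measureReal (measure_ne_top _ _)] at h
  by_cases h1 : P (cell L k s) = 0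
  · simp [h1]
  by_cases h2 : Q (cell L k s) = 0
  · simp [h2]
  exact h (toReal_pos h1 (measure_ne_top _ _)) (toReal_pos h2 (measure_ne_top _ _))

lemma geo (h1 : 2 ≤ (L : ℝ) ^ q) (h2 : 2 ≤ (L : ℝ) ^ (1 - q)) (hq : 0 < q) (hq1 : q < 1) (hL : 2 ≤ L) {d : ℝ}
    (hd : 0 ≤ d) : ∑' k : ℤ, .ofReal (((L : ℝ) ^ k) ^ q) * min 1 (ENNReal.ofReal (d / L ^ k)) ≤ 4 * .ofReal (d ^ q) := by
  rcases hd.eq_or_lt with rfl | hd
  · simp
  have h0 : (1 : ℝ) < L := by exact_mod_cast hL
  have h3 := zero_lt_one.trans h0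
  obtain ⟨k, a, b⟩ := exists_mem_Ico_zpow hd h0
  have e : ∀ n : ℕ, ENNReal.ofReal (d ^ q / 2 ^ n) = .ofReal (d ^ q) * 2⁻¹ ^ n := fun n => by
    rw [ofReal_div_of_pos (by positivity), ofReal_pow zero_le_two, div_eq_mul_inv, ENNReal.inv_pow, ofReal_ofNat]
  have e2 : ∀ (n : ℕ) (r : ℝ), ((L : ℝ) ^ n) ^ r = (L ^ r) ^ n := fun n r => by
    rw [← Real.rpow_natCast_mul h3.le, mul_comm, Real.rpow_mul_natCast h3.le]
  rw [← (Equiv.addRight (k + 1)).tsum_eq, tsum_of_nat_of_neg_add_one ENNReal.summable ENNReal.summable]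
  refine (add_le_add (ENNReal.tsum_le_tsum fun n => le_of_le_of_eq ?_ (e n))
    (ENNReal.tsum_le_tsum fun n => le_of_le_of_eq ?_ (e n))).trans_eq ?_
  · refine (mul_le_mul_right (min_le_right _ _) _).trans ?_
    rw [← ofReal_mul (by positivity), Equiv.coe_addRight]
    beta_reduce
    refine ofReal_le_ofReal ?_
    have h4 : d ^ (1 - q) * 2 ^ n ≤ (L ^ (n + (k + 1) : ℤ)) ^ (1 - q) := by
      rw [zpow_add₀ h3.ne', Real.mul_rpow (by positivity) (by positivity), zpow_natCast, e2, mul_comm]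
      gcongr
    rw [Real.rpow_sub hd, Real.rpow_sub (by positivity), Real.rpow_one, Real.rpow_one] at h4
    have h5 := Real.rpow_pos_of_pos hd q
    have h6 := Real.rpow_pos_of_pos (zpow_pos h3 (n + (k + 1))) q
    rw [div_mul_eq_mul_div, div_le_div_iff₀ h5 h6] at h4
    rw [← mul_div_assoc, div_le_div_iff₀ (by positivity) (by positivity)]
    linarith
  · refine (mul_le_of_le_one_right' (min_le_left _ _)).trans (ofReal_le_ofReal ?_)
    rw [Equiv.coe_addRight]
    beta_reduce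
    rw [show -((n : ℤ) + 1) + (k + 1) = k - n by ring, zpow_sub₀ h3.ne',
      Real.div_rpow (by positivity) (by positivity), zpow_natCast, e2]
    gcongr
  · rw [ENNReal.tsum_mul_left, ENNReal.tsum_geometric, one_sub_inv_two, inv_inv, ← mul_add, mul_comm]
    norm_num

lemma exL {r : ℝ} (h0 : 0 < r) (h1 : r ≤ 1 / 2) :
    ∃ L : ℕ, 2 ≤ L ∧ 2 ≤ (L : ℝ) ^ r ∧ (L : ℝ) ^ r ≤ 4 ∧ 2 ≤ (L : ℝ) ^ (1 - r) := by
  have h2 : (2 : ℝ) ≤ 2 ^ r⁻¹ := Real.self_le_rpow_of_one_le one_le_two ((one_le_inv₀ h0).2 (by linarith))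
  have h3 := Nat.le_ceil ((2 : ℝ) ^ r⁻¹)
  have h4 := Real.rpow_le_rpow (by positivity) h3 h0.le
  rw [Real.rpow_inv_rpow zero_le_two h0.ne'] at h4
  refine ⟨_, by exact_mod_cast h2.trans h3, h4, ?_, h4.trans (Real.rpow_le_rpow_of_exponent_le (by linarith) (by linarith))⟩
  refine (Real.rpow_le_rpow (by positivity) (show _ ≤ 2 * (2 : ℝ) ^ r⁻¹ by
    linarith [Nat.ceil_lt_add_one (show (0 : ℝ) ≤ 2 ^ r⁻¹ by positivity)]) h0.le).trans ?_
  rw [Real.mul_rpow zero_le_two (by positivity), Real.rpow_inv_rpow zero_le_two h0.ne']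
  linarith [Real.rpow_le_self_of_one_le one_le_two (show r ≤ 1 by linarith)]

/-! ### The quantile step -/

noncomputable def φq (L : ℕ) (a : ℕ → ℝ) (θ : ℝ) : ℕ :=
  ∑ i ∈ Finset.range (L - 1), if (∑ j ∈ Finset.range (i + 1), a j) / ∑ j ∈ Finset.range L, a j ≤ θ then 1 else 0

instance : IsProbabilityMeasure (volume.restrict (Ico (0 : ℝ) 1)) := ⟨by simp⟩

lemma good_q (hL : 2 ≤ L) : Good L (φq L) (volume.restrict (Ico 0 1)) := by
  have h1 : Measurable (uncurry (φq L)) := by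
    unfold uncurry φq
    exact Finset.measurable_sum _ fun i _ =>
      .ite (measurableSet_le (by fun_prop) measurable_snd) measurable_const measurable_const
  have h2 : ∀ a θ, φq L a θ < L := fun a θ => (Finset.sum_le_card_nsmul _ _ 1 fun _ _ => by split_ifs <;> simp).trans_lt
    (by simp; omega)
  refine ⟨hL, h1, h2, fun a ha => law_of_le h1.of_uncurry_left (h2 a) ha fun hS j hj => ?_⟩
  have hm : Monotone fun n => (∑ i ∈ Finset.range n, a i) / ∑ i ∈ Finset.range L, a i := fun _ _ h =>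
    div_le_div_of_nonneg_right (Finset.sum_mono_set_of_nonneg ha (Finset.range_mono h)) hS.le
  rw [restrict_apply' measurableSet_Ico]
  refine le_trans ?_ (measure_mono (s := Ico ((∑ i ∈ Finset.range j, a i) / ∑ i ∈ Finset.range L, a i)
    ((∑ i ∈ Finset.range (j + 1), a i) / ∑ i ∈ Finset.range L, a i)) fun θ h => ⟨?_, le_trans (by simpa using hm j.zero_le)
      h.1, h.2.trans_le ((hm hj).trans_eq (div_self hS.ne'))⟩)
  · simp [Finset.sum_range_succ, add_div]
  · rw [mem_ofPred, φq, ← Finset.card_filter, ← Finset.card_range j]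
    congr 1
    ext i
    simp only [Finset.mem_filter, Finset.mem_range]
    exact ⟨fun e => lt_of_not_ge fun c => (e.2.trans_lt h.2).not_ge (hm (by omega)), fun e => ⟨by omega, (hm e).trans h.1⟩⟩

lemma loc_q (hL : 2 ≤ L) (hq1 : q ≤ 1) : Loc L (φq L) (volume.restrict (Ico 0 1)) (fun k a b =>
    .ofReal (2 * ((L : ℝ) ^ (k - 1)) ^ q) * min (L : ℝ≥0∞) a + .ofReal (2 * ((L : ℝ) ^ (k - 1)) ^ q) * (3 * L) *
      min 1 (b : ℝ≥0∞)) q := by
  rintro _ _ π _ rfl rfl k s
  refine min_cell hL _ _ k s fun hS hT => ?_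
  have hl : 0 < (L : ℝ) ^ (k - 1) := by positivity
  obtain ⟨a, ha⟩ : ∃ a : ℕ → ℝ, ∀ i, a i = (∑ j ∈ Finset.range (i + 1), ms L π.fst k s j) /
    ∑ j ∈ Finset.range L, ms L π.fst k s j := ⟨_, fun _ => rfl⟩
  obtain ⟨b, hb⟩ : ∃ a : ℕ → ℝ, ∀ i, a i = (∑ j ∈ Finset.range (i + 1), ms L π.snd k s j) /
    ∑ j ∈ Finset.range L, ms L π.snd k s j := ⟨_, fun _ => rfl⟩
  have h1 : ∫⁻ θ in {θ | φq L (ms L π.fst k s) θ = φq L (ms L π.snd k s) θ}ᶜ, .ofReal (((|(φq L (ms L π.fst k s) θ : ℝ) -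
      φq L (ms L π.snd k s) θ| + 1) * L ^ (k - 1)) ^ q) ∂volume.restrict (Ico 0 1) ≤
      .ofReal (2 * ((L : ℝ) ^ (k - 1)) ^ q) * .ofReal (∑ i ∈ Finset.range (L - 1), |a i - b i|) := by
    refine (setLIntegral_mono' (g := fun θ => .ofReal (2 * ((L : ℝ) ^ (k - 1)) ^ q) * ∑ i ∈ Finset.range (L - 1),
      (uIoc (-a i) (-b i)).indicator 1 (-θ)) (measurableSet_eq_fun (good_q hL).meas.of_uncurry_left
        (good_q hL).meas.of_uncurry_left).compl fun θ hθ => ?_).trans ((lintegral_mono' (restrict_le_self.trans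
        restrict_le_self) le_rfl).trans_eq ?_)
    · have h2 : (1 : ℝ) ≤ |(φq L (ms L π.fst k s) θ : ℝ) - φq L (ms L π.snd k s) θ| := by
        exact_mod_cast Int.one_le_abs (sub_ne_zero.2 (Nat.cast_injective.ne hθ))
      refine (ofReal_le_ofReal (show _ ≤ 2 * ((L : ℝ) ^ (k - 1)) ^ q * ∑ i ∈ Finset.range (L - 1),
        (uIoc (-a i) (-b i)).indicator 1 (-θ) from ?_)).trans_eq ?_
      · rw [Real.mul_rpow (by positivity) hl.le, mul_right_comm]
        refine mul_le_mul_of_nonneg_right ((Real.rpow_le_self_of_one_le (by linarith) hq1).trans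
          (((add_le_add_right h2 _).trans_eq (two_mul _).symm).trans (mul_le_mul_of_nonneg_left ?_ zero_le_two)))
          (by positivity)
        simp only [φq, ← ha, ← hb, Nat.cast_sum, ← Finset.sum_sub_distrib]
        refine (Finset.abs_sum_le_sum_abs _ _).trans (Finset.sum_le_sum fun i _ => ?_)
        by_cases e : a i ≤ θ <;> by_cases e' : b i ≤ θ <;> simp [e, e', indicator, mem_uIoc, lt_of_not_ge] <;> positivity
      · rw [ofReal_mul (by positivity), ofReal_sum_of_nonneg fun _ _ => indicator_nonneg (by simp) _]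
        congr 2 with i
        by_cases e : -θ ∈ uIoc (-a i) (-b i) <;> simp [e]
    · rw [lintegral_const_mul' _ _ ofReal_ne_top, lintegral_neg_eq_self (fun θ => ∑ i ∈ Finset.range (L - 1),
        (uIoc (-a i) (-b i)).indicator (1 : ℝ → ℝ≥0∞) θ), lintegral_finsetSum _ fun _ _ =>
        measurable_one.indicator measurableSet_uIoc, ofReal_sum_of_nonneg fun _ _ => abs_nonneg _]
      simp [measurableSet_uIoc, neg_add_eq_sub]
  refine (mul_le_mul_right h1 _).trans ?_
  simp only [mul_assoc (ENNReal.ofReal _), ← mul_add, mul_left_comm _ (ENNReal.ofReal (2 * _))]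
  rw [lintegral_const_mul' _ _ ofReal_ne_top, ← ofReal_mul (by positivity)]
  refine mul_le_mul_right (le_trans (ofReal_le_ofReal ?_) ((aux π (L - 1) (fun _ => s) (fun i => ch L k s (i + 1))
    (measurableSet_Ico : MeasurableSet (cell L k s)) (c := 2 * L)).trans (lintegral_mono fun z => ?_))) _
  · have e := ch_top hL k s
    rw [cell] at e
    rw [Finset.mul_sum, ← e]
    simp only [← ms_sum hL, ha, hb]
    refine (Finset.sum_le_sum fun i hi => (mn hS hT (Finset.sum_nonneg (f := ms L π.fst k s)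
      (s := Finset.range (i + 1)) fun _ _ => measureReal_nonneg) (Finset.sum_nonneg (f := ms L π.snd k s)
      (s := Finset.range (i + 1)) fun _ _ => measureReal_nonneg)).trans (add_le_add_right (mul_le_mul_of_nonneg_left
        (show _ ≤ (1 : ℝ) + 1 from add_le_add ?_ ?_) (abs_nonneg _)) _)).trans ?_
    iterate 2 exact (div_le_one (by assumption)).2 (Finset.sum_mono_set_of_nonneg (fun _ => measureReal_nonneg)
      (Finset.range_mono (by have := Finset.mem_range.1 hi; omega)))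
    rw [Finset.sum_add_distrib, Finset.sum_const, Finset.card_range, nsmul_eq_mul, Nat.cast_pred (by omega)]
    push_cast
    nlinarith [abs_nonneg (∑ j ∈ Finset.range L, ms L π.fst k s j - ∑ j ∈ Finset.range L, ms L π.snd k s j)]
  · have h2 := dif_le hL k s z
    have h3 : ∑ i ∈ Finset.range (L - 1), dif (Ico s (ch L k s (i + 1))) z ≤ L :=
      (Finset.sum_le_card_nsmul _ _ 1 fun _ _ => by unfold dif; split_ifs <;> simp).trans (by simp)
    rw [show (3 : ℝ≥0∞) = 1 + 2 by norm_num, add_mul, add_mul, ← add_assoc, mul_add, mul_left_comm, Nat.cast_mul, one_mul]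
    refine add_le_add ?_ (mul_le_mul_right h2 _)
    by_cases h : z.1 ∈ cell L k s ↔ z.2 ∈ cell L k s
    · by_cases h' : z.1 ∈ cell L k s
      · refine le_trans (le_min h3 ?_) (le_mul_of_one_le_of_le (by simp [ind2, h']) le_self_add)
        have h4 : ∀ x ∈ cell L k s, ∃ n : ℕ, ⌊(x - s) / L ^ (k - 1)⌋ = n ∧ ∀ i, x ∈ Ico s (ch L k s (i + 1)) ↔ n ≤ i :=
          fun x hx => ⟨_, (Int.natCast_floor_eq_floor (div_nonneg (sub_nonneg.2 hx.1) hl.le)).symm, fun i => by
            rw [← Nat.lt_succ_iff, Nat.floor_lt (div_nonneg (sub_nonneg.2 hx.1) hl.le), div_lt_iff₀ hl, sub_lt_iff_lt_add']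
            exact and_iff_right hx.1⟩
        obtain ⟨n, hn, hn'⟩ := h4 _ h'
        obtain ⟨m, hm, hm'⟩ := h4 _ (h.1 h')
        simp only [dif, N, hn, hm, hn', hm', Finset.sum_ite, Finset.sum_const_zero, zero_add, Finset.sum_const,
          nsmul_eq_mul, mul_one, Nat.cast_le]
        refine (Finset.card_le_card (t := Finset.Ico (min n m) (max n m)) fun i hi => ?_).trans (by simp; omega)
        simp only [Finset.mem_filter, Finset.mem_Ico] at hi ⊢
        omega
      · refine (Finset.sum_eq_zero fun i hi => if_pos (iff_of_false (fun e => h' ?_) fun e => h' (h.2 ?_))).trans_le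
          zero_le <;> rw [← ch_top hL] <;> refine ⟨e.1, e.2.trans_le ?_⟩ <;> unfold ch <;> gcongr <;>
          have := Finset.mem_range.1 hi <;> omega
    · rw [dif, if_neg h] at h2
      refine h3.trans ?_
      rw [mul_add, mul_left_comm]
      exact le_add_left (le_mul_of_one_le_right' h2)

end Pool.Agent.H.MP_ee92c9_pr
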