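import Pool.Agent.H.MP_ee92c9_pr.D

namespace Pool.Agent.H.MP_ee92c9_pr

open MeasureTheory Set Function Filter Topology ENNReal Measure ProbabilityTheory

variable {L : ℕ} {q : ℝ}

def first (U V : Set ℝ) : Set (ℕ → ℝ) := {θ | ∃ t, θ t ∈ V ∧ ∀ i < t, θ i ∉ U}

lemma first_prob (μ : Measure ℝ) [IsProbabilityMeasure μ] {U V : Set ℝ} (hU : MeasurableSet U) (hV : MeasurableSet V)
    (h : V ⊆ U) : μ U * infinitePi (fun _ => μ) (first U V) = μ V := by
  have e : first U V = ⋃ t, Set.pi (Finset.range (t + 1)) fun i => if i = t then V else Uᶜ := by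
    ext θ
    simp only [first, mem_ofPred, mem_iUnion, Set.mem_pi, Finset.mem_coe, Finset.mem_range]
    exact exists_congr fun t => ⟨fun a i hi => by
      split_ifs with c
      exacts [c ▸ a.1, a.2 i (by omega)], fun a => ⟨by simpa using a t t.lt_succ_self, fun i hi => by
      simpa [hi.ne] using a i (by omega)⟩⟩
  have hm : ∀ t i : ℕ, MeasurableSet (if i = t then V else Uᶜ) := fun t i => by split_ifs; exacts [hV, hU.compl]
  rw [e, measure_iUnion ((pairwise_disjoint_on _).2 fun i j hij => disjoint_left.2 fun θ a b => ?_)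
    fun t => .pi (Finset.countable_toSet _) fun i _ => hm t i]
  · have : ∀ t, ∏ i ∈ Finset.range (t + 1), μ (if i = t then V else Uᶜ) = μ Uᶜ ^ t * μ V := fun t => by
      rw [Finset.prod_range_succ, if_pos rfl, Finset.prod_congr rfl fun i hi => by rw [if_neg (Finset.mem_range.1 hi).ne]]
      simp
    simp only [infinitePi_pi _ fun i _ => hm _ i, this, ENNReal.tsum_mul_right, ENNReal.tsum_geometric,
      ← prob_compl_eq_one_sub hU.compl, compl_compl]
    by_cases c : μ U = 0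
    · simp [c, measure_mono_null h c]
    · rw [← mul_assoc, ENNReal.mul_inv_cancel c (measure_ne_top _ _), one_mul]
  · have h1 := a i (by simp)
    have h2 := b i (by simp; omega)
    simp only [if_true, hij.ne, if_false] at h1 h2
    exact h2 (h h1)

def R (L : ℕ) (a : ℕ → ℝ) (j : ℕ) : Set ℝ := Ico (j : ℝ) (min (j + 1) (j + a j / ∑ i ∈ Finset.range L, a i))

def RR (L : ℕ) (a : ℕ → ℝ) : Set ℝ := ⋃ j ∈ Finset.range L, R L a j

open Classical in
noncomputable def φr (L : ℕ) (a : ℕ → ℝ) (θ : ℕ → ℝ) : ℕ :=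
  min (L - 1) (∑ j ∈ Finset.range L, if θ ∈ first (RR L a) (R L a j) then j else 0)

noncomputable def ν₁ (L : ℕ) : Measure ℝ := cond volume (Ico 0 L)

instance [NeZero L] : IsProbabilityMeasure (ν₁ L) :=
  cond_isProbabilityMeasure_of_finite (by simpa using NeZero.ne L) (by simp)

lemma R_uniq {a b : ℕ → ℝ} {i j : ℕ} {x : ℝ} (h1 : x ∈ R L a i) (h2 : x ∈ R L b j) : i = j := by
  simp only [R, mem_Ico, lt_min_iff] at h1 h2
  have : i < j + 1 := by exact_mod_cast h1.1.trans_lt h2.2.1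
  have : j < i + 1 := by exact_mod_cast h2.1.trans_lt h1.2.1
  omega

lemma φr_eq {a : ℕ → ℝ} {θ : ℕ → ℝ} {j : ℕ} (hj : j < L) (h : θ ∈ first (RR L a) (R L a j)) : φr L a θ = j := by
  rw [φr, Finset.sum_eq_single j (fun i hi c => if_neg fun h' => c ?_) (by simp [hj]), if_pos h, min_eq_right (by omega)]
  obtain ⟨t, h1, h2⟩ := h
  obtain ⟨t', h3, h4⟩ := h'
  rcases lt_trichotomy t t' with e | rfl | e
  · exact (h4 t e (mem_biUnion (Finset.mem_range.2 hj) h1)).elim
  · exact R_uniq h3 h1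
  · exact (h2 t' e (mem_biUnion hi h3)).elim

lemma ν_le (A : Set ℝ) : ν₁ L A ≤ (L : ℝ≥0∞)⁻¹ * volume A := by
  rw [ν₁, cond_apply measurableSet_Ico]
  simpa using mul_le_mul_right (measure_mono inter_subset_right) _

section
variable {a : ℕ → ℝ} (ha : ∀ j, 0 ≤ a j) (hS : 0 < ∑ i ∈ Finset.range L, a i)
include ha hS

lemma R_eq {j : ℕ} (hj : j < L) : R L a j = Ico (j : ℝ) (j + a j / ∑ i ∈ Finset.range L, a i) := by
  rw [R, min_eq_right (add_le_add_right ((div_le_one hS).2 (Finset.single_le_sum (fun i _ => ha i)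
    (Finset.mem_range.2 hj))) _)]

lemma ν_R {j : ℕ} (hj : j < L) : ν₁ L (R L a j) = (L : ℝ≥0∞)⁻¹ * .ofReal (a j / ∑ i ∈ Finset.range L, a i) := by
  rw [ν₁, cond_apply measurableSet_Ico, inter_eq_right.2 (show R L a j ⊆ _ from Ico_subset_Ico j.cast_nonneg
    ((min_le_left _ _).trans (by exact_mod_cast hj))), R_eq ha hS hj]
  simp

lemma ν_RR : ν₁ L (RR L a) = (L : ℝ≥0∞)⁻¹ := by
  rw [RR, measure_biUnion_finset (fun i _ j _ c => disjoint_left.2 fun x h1 h2 => c (R_uniq h1 h2))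
    fun _ _ => measurableSet_Ico, Finset.sum_congr rfl fun j hj => ν_R ha hS (Finset.mem_range.1 hj), ← Finset.mul_sum,
    ← ofReal_sum_of_nonneg fun j _ => div_nonneg (ha j) hS.le, ← Finset.sum_div, div_self hS.ne']
  simp

end

lemma RR_meas (a : ℕ → ℝ) : MeasurableSet (RR L a) := Finset.measurableSet_biUnion _ fun _ _ => measurableSet_Ico

lemma good_r [NeZero L] (hL : 2 ≤ L) : Good L (φr L) (infinitePi fun _ => ν₁ L) := by
  have h0 : ∀ j t, Measurable fun z : (ℕ → ℝ) × (ℕ → ℝ) => z.2 t ∈ R L z.1 j := fun j t => by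
    simp only [R, mem_Ico]
    exact (Measurable.le' (by fun_prop) (by fun_prop)).and (Measurable.lt (by fun_prop) (by fun_prop))
  have h1 : Measurable (uncurry (φr L)) := by
    unfold uncurry φr
    refine measurable_const.min (Finset.measurable_sum _ fun i _ => .ite (measurableSet_setOfPred.2 ?_) measurable_const
      measurable_const)
    simp only [first, RR, mem_ofPred, mem_iUnion]
    exact .exists fun t => (h0 _ _).and (.forall fun i => .imp measurable_const (.not (.exists fun j => .exists fun _ => h0 _ _)))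
  have h2 : ∀ a θ, φr L a θ < L := fun a θ => (min_le_left _ _).trans_lt (by omega)
  refine ⟨hL, h1, h2, fun a ha => law_of_le h1.of_uncurry_left (h2 a) ha fun hS j hj =>
    le_trans (le_of_eq ?_) (measure_mono fun θ => φr_eq hj)⟩
  have := first_prob (ν₁ L) (RR_meas a) measurableSet_Ico (subset_biUnion_of_mem (u := R L a) (Finset.mem_range.2 hj))
  rw [ν_RR ha hS] at this
  exact (ENNReal.mul_right_inj (by simp) (by simpa using NeZero.ne L)).1 ((ν_R ha hS hj).symm.trans this.symm)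

lemma loc_r [NeZero L] (hL : 2 ≤ L) (hq : 0 < q) : Loc L (φr L) (infinitePi fun _ => ν₁ L) (fun k a b =>
    .ofReal (((L : ℝ) ^ k) ^ q) * min 1 (a : ℝ≥0∞) + .ofReal (((L : ℝ) ^ k) ^ q) * 2 * min 1 (b : ℝ≥0∞)) q := by
  rintro _ _ π _ rfl rfl k s
  refine min_cell hL _ _ k s fun hS hT => ?_
  have hl : 0 < (L : ℝ) ^ (k - 1) := by positivity
  have ha : ∀ j, 0 ≤ ms L π.fst k s j := fun _ => measureReal_nonneg
  have hb : ∀ j, 0 ≤ ms L π.snd k s j := fun _ => measureReal_nonneg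
  have h1 : infinitePi (fun _ => ν₁ L) {θ | φr L (ms L π.fst k s) θ = φr L (ms L π.snd k s) θ}ᶜ ≤
      .ofReal (∑ j ∈ Finset.range L, |ms L π.fst k s j / ∑ i ∈ Finset.range L, ms L π.fst k s i -
        ms L π.snd k s j / ∑ i ∈ Finset.range L, ms L π.snd k s i|) := by
    generalize ms L π.fst k s = a at *
    generalize ms L π.snd k s = b at *
    have hU := (RR_meas (L := L) a).union (RR_meas (L := L) b)
    have hW : MeasurableSet (⋃ j ∈ Finset.range L, R L a j ∩ R L b j) :=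
      Finset.measurableSet_biUnion _ fun _ _ => measurableSet_Ico.inter measurableSet_Ico
    have hUW : (⋃ j ∈ Finset.range L, R L a j ∩ R L b j) ⊆ RR L a ∪ RR L b :=
      (iUnion₂_mono fun _ _ => inter_subset_left).trans subset_union_left
    have h2 := first_prob (ν₁ L) hU hW hUW
    have h3 : MeasurableSet (first (RR L a ∪ RR L b) (⋃ j ∈ Finset.range L, R L a j ∩ R L b j)) :=
      measurableSet_setOfPred.2 (.exists fun t => (hW.mem.comp (measurable_pi_apply t)).and (.forall fun i =>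
        .imp measurable_const (hU.mem.comp (measurable_pi_apply i)).not))
    refine (measure_mono (compl_subset_compl.2 (show first (RR L a ∪ RR L b) (⋃ j ∈ Finset.range L, R L a j ∩ R L b j) ⊆ _
      from fun θ ⟨t, c, c'⟩ => ?_))).trans ?_
    · obtain ⟨j, hj, c⟩ := mem_iUnion₂.1 c
      exact (φr_eq (Finset.mem_range.1 hj) ⟨t, c.1, fun i hi e => c' i hi (.inl e)⟩).trans
        (φr_eq (Finset.mem_range.1 hj) ⟨t, c.2, fun i hi e => c' i hi (.inr e)⟩).symm
    rw [← ENNReal.mul_le_mul_iff_right (a := (L : ℝ≥0∞)⁻¹) (by simp) (by simpa using NeZero.ne L)]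
    refine (mul_le_mul_left ((ν_RR ha hS).ge.trans (measure_mono (subset_union_left (t := RR L b)))) _).trans ?_
    rw [prob_compl_eq_one_sub h3, ENNReal.mul_sub fun _ _ => measure_ne_top _ _, mul_one, h2,
      ← measure_sdiff hUW hW.nullMeasurableSet (measure_ne_top _ _), ofReal_sum_of_nonneg fun _ _ => abs_nonneg _]
    refine (ν_le _).trans (mul_le_mul_right ((measure_mono (t := ⋃ j ∈ Finset.range L, uIcc
      (j + a j / ∑ i ∈ Finset.range L, a i) (j + b j / ∑ i ∈ Finset.range L, b i)) fun x hx => ?_).trans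
      ((measure_biUnion_finset_le _ _).trans_eq (by simp [abs_sub_comm]))) _)
    have h4 := fun j hj c => hx.2 (mem_biUnion (x := j) hj c)
    rcases hx.1 with c | c <;> obtain ⟨j, hj, c⟩ := mem_iUnion₂.1 c <;> refine mem_biUnion hj ?_ <;>
      specialize h4 j hj <;> simp only [mem_inter_iff, R_eq ha hS (Finset.mem_range.1 hj),
        R_eq hb hT (Finset.mem_range.1 hj), mem_Ico, mem_uIcc] at c h4 ⊢ <;> grind
  refine (mul_le_mul_right ((setLIntegral_mono' (g := fun _ => .ofReal (((L : ℝ) ^ k) ^ q))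
    (measurableSet_eq_fun (good_r hL).meas.of_uncurry_left (good_r hL).meas.of_uncurry_left).compl fun θ _ =>
      ofReal_le_ofReal (Real.rpow_le_rpow (by positivity) ?_ hq.le)).trans ((setLIntegral_const _ _).trans_le
      (mul_le_mul_right h1 _))) _).trans ?_
  · have h2 : ((φr L (ms L π.fst k s) θ + 1 : ℕ) : ℝ) ≤ L := Nat.cast_le.2 ((good_r hL).lt _ _)
    have h3 : ((φr L (ms L π.snd k s) θ + 1 : ℕ) : ℝ) ≤ L := Nat.cast_le.2 ((good_r hL).lt _ _)
    push_cast at h2 h3
    rw [show (L : ℝ) ^ k = L * L ^ (k - 1) by rw [mul_comm, ← zpow_add_one₀ (by positivity), sub_add_cancel]]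
    refine mul_le_mul_of_nonneg_right (le_sub_iff_add_le.1 (abs_le.2 ⟨?_, ?_⟩)) hl.le <;>
      linarith [(φr L (ms L π.fst k s) θ).cast_nonneg (α := ℝ), (φr L (ms L π.snd k s) θ).cast_nonneg (α := ℝ)]
  simp only [mul_assoc (ENNReal.ofReal _), ← mul_add, mul_left_comm _ (ENNReal.ofReal ((_ : ℝ) ^ q))]
  rw [lintegral_const_mul' _ _ ofReal_ne_top, ← ofReal_mul (by positivity)]
  refine mul_le_mul_right (le_trans (ofReal_le_ofReal ?_) ((aux π L (ch L k s) (fun i => ch L k s i + L ^ (k - 1))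
    (measurableSet_Ico : MeasurableSet (cell L k s)) (c := 2)).trans (lintegral_mono fun z => ?_))) _
  · have e := ch_top hL k s
    rw [cell] at e
    rw [Finset.mul_sum, ← e, ← ms_sum hL, ← ms_sum hL]
    refine (Finset.sum_le_sum fun i hi => mn hS hT (ha i) (hb i)).trans_eq ?_
    rw [Finset.sum_add_distrib, ← Finset.mul_sum, Finset.sum_add_distrib, ← Finset.sum_div, ← Finset.sum_div,
      div_self hS.ne', div_self hT.ne', one_add_one_eq_two, mul_comm]
    rfl
  · rw [mul_add, mul_left_comm]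
    refine add_le_add ?_ (mul_le_mul_right (dif_le hL k s z) _)
    refine (Finset.sum_le_sum fun i _ => (dif_le hL (k - 1) (ch L k s i) z).trans_eq (by rw [N_ch hL (by omega)])).trans_eq ?_
    simp only [← Finset.sum_mul, ind2, Finset.sum_add_distrib, ← ind_sum hL]

/-! ### Convex costs -/

lemma hinge (hq : 1 ≤ q) : ∃ m : Measure ℝ, SFinite m ∧ ∀ z : ℝ,
    ENNReal.ofReal (|z| ^ q) = ∫⁻ s, .ofReal (z - s) ∂m + ∫⁻ s, .ofReal (-z - s) ∂m := by
  obtain ⟨m, h1, h2⟩ : ∃ m : Measure ℝ, SFinite m ∧ ∀ r, 0 ≤ r → ∫⁻ s, .ofReal (r - s) ∂m = .ofReal (r ^ q) := by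
    rcases hq.eq_or_lt with rfl | hq
    · exact ⟨dirac 0, inferInstance, fun r _ => by simp⟩
    refine ⟨(volume.restrict (Ioi 0)).withDensity fun s => .ofReal (q * (q - 1) * s ^ (q - 2)), inferInstance, fun r hr => ?_⟩
    have hI : ∀ p : ℝ, -1 < p → IntervalIntegrable (fun s : ℝ => s ^ p) volume 0 r := fun p =>
      intervalIntegral.intervalIntegrable_rpow'
    have e := ((hI (q - 2) (by linarith)).const_mul (q * (q - 1) * r)).sub ((hI (q - 1) (by linarith)).const_mul (q * (q - 1)))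
    have e2 : ∀ s ∈ Ioc 0 r, q * (q - 1) * s ^ (q - 2) * (r - s) = q * (q - 1) * r * s ^ (q - 2) - q * (q - 1) * s ^ (q - 1) :=
      fun s hs => by rw [show q - 1 = q - 2 + 1 by ring, Real.rpow_add_one hs.1.ne']; ring
    rw [lintegral_withDensity_eq_lintegral_mul _ (by fun_prop) (by fun_prop), ← Ioc_union_Ioi_eq_Ioi hr,
      lintegral_union measurableSet_Ioi Ioc_disjoint_Ioi_same, setLIntegral_eq_zero measurableSet_Ioi fun s hs => by
        simp [ofReal_of_nonpos (sub_nonpos.2 (le_of_lt hs))], add_zero, setLIntegral_congr_fun measurableSet_Ioc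
        fun s hs => by rw [Pi.mul_apply, ← ofReal_mul (by have := hs.1; have := sub_pos.2 hq; positivity), e2 s hs],
      ← ofReal_integral_eq_lintegral_ofReal e.1 (ae_restrict_of_forall_mem measurableSet_Ioc fun s hs => by
        have := hs.1; have := sub_pos.2 hq; have := sub_nonneg.2 hs.2
        simp only [← e2 s hs, Pi.zero_apply]; positivity), ← intervalIntegral.integral_of_le hr,
      intervalIntegral.integral_sub ((hI _ (by linarith)).const_mul _) ((hI _ (by linarith)).const_mul _),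
      intervalIntegral.integral_const_mul, intervalIntegral.integral_const_mul, integral_rpow (.inl (by linarith)),
      integral_rpow (.inl (by linarith)), Real.zero_rpow (by linarith), Real.zero_rpow (by linarith),
      show q - 2 + 1 = q - 1 by ring, sub_add_cancel, show r ^ q = r ^ (q - 1) * r by
        rw [← Real.rpow_add_one' hr (by linarith), sub_add_cancel]]
    have := sub_pos.2 hq
    congr 1
    field_simp
    ring
  have h3 : ∀ r, r ≤ 0 → ∫⁻ s, .ofReal (r - s) ∂m = 0 := fun r hr => nonpos_iff_eq_zero.1 ((lintegral_mono fun s =>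
    ofReal_le_ofReal (sub_le_sub_right hr s)).trans_eq (by rw [h2 0 le_rfl, Real.zero_rpow (by linarith), ofReal_zero]))
  refine ⟨m, h1, fun z => ?_⟩
  rcases le_total 0 z with h | h
  · rw [h2 z h, h3 _ (neg_nonpos.2 h), add_zero, abs_of_nonneg h]
  · rw [h2 _ (neg_nonneg.2 h), h3 _ h, zero_add, abs_of_nonpos h]

lemma hinge2 {Ω : Type} [MeasurableSpace Ω] (μ : Measure Ω) [SFinite μ] (m : Measure ℝ) [SFinite m] {f g : Ω → ℝ}
    (hf : Measurable f) (hg : Measurable g) : ∫⁻ ω, ∫⁻ s, .ofReal (f ω - g ω - s) ∂m ∂μ =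
      ∫⁻ w, μ {ω | g ω ≤ w.2 ∧ w.2 + w.1 < f ω} ∂m.prod volume := by
  have hA : MeasurableSet {z : Ω × ℝ × ℝ | g z.1 ≤ z.2.2 ∧ z.2.2 + z.2.1 < f z.1} := by measurability
  refine Eq.trans (lintegral_congr fun ω => ?_) ((Measure.prod_apply hA).symm.trans (prod_apply_symm hA))
  rw [Measure.prod_apply (measurable_prodMk_left hA)]
  refine lintegral_congr fun s => ?_
  rw [show Prod.mk s ⁻¹' (Prod.mk ω ⁻¹' {z : Ω × ℝ × ℝ | g z.1 ≤ z.2.2 ∧ z.2.2 + z.2.1 < f z.1}) = Ico (g ω) (f ω - s) from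
    by ext; simp [lt_sub_iff_add_lt], Real.volume_Ico, sub_right_comm]

open Classical in
noncomputable def qu (P : Measure ℝ) (u : unitInterval) : ℝ := if 0 < u.1 ∧ u.1 < 1 then sInf {x | u.1 ≤ cdf P x} else 0

lemma qu_le (P : Measure ℝ) {u : unitInterval} (h : 0 < u.1 ∧ u.1 < 1) (t : ℝ) : qu P u ≤ t ↔ u.1 ≤ cdf P t := by
  obtain ⟨a, ha⟩ := eventually_atBot.1 ((tendsto_cdf_atBot P).eventually_lt_const h.1)
  obtain ⟨b, hb⟩ := ((tendsto_cdf_atTop P).eventually_const_le h.2).exists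
  have hB : BddBelow {x | u.1 ≤ cdf P x} := ⟨a, fun x hx => le_of_not_ge fun c => (ha x c).not_ge hx⟩
  rw [qu, if_pos h]
  refine ⟨fun c => ge_of_tendsto (((cdf P).right_continuous t).mono Ioi_subset_Ici_self) ?_, fun c => csInf_le hB c⟩
  filter_upwards [self_mem_nhdsWithin] with x hx
  obtain ⟨y, h1, h2⟩ := exists_lt_of_csInf_lt ⟨b, hb⟩ (c.trans_lt hx)
  exact h1.trans (monotone_cdf P h2.le)

lemma qu_meas (P : Measure ℝ) : Measurable (qu P) := measurable_of_Iic fun t => by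
  rw [show qu P ⁻¹' Iic t = {u | ((0 < u.1 ∧ u.1 < 1) ∧ u.1 ≤ cdf P t) ∨ (¬ (0 < u.1 ∧ u.1 < 1) ∧ 0 ≤ t)} from
    ext fun u => by
      by_cases h : 0 < u.1 ∧ u.1 < 1
      · simp only [mem_preimage, mem_Iic, qu_le P h, mem_ofPred, h, and_self, true_and, not_true, false_and, or_false]
      · simp only [mem_preimage, mem_Iic, qu, mem_ofPred, h, true_and, not_false_iff, false_and, false_or, if_false]]
  measurability

lemma qu_ae : ∀ᵐ u : unitInterval, 0 < u.1 ∧ u.1 < 1 := by
  filter_upwards [volume.ae_ne 0, volume.ae_ne 1] with u h1 h2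
  exact ⟨unitInterval.pos_iff_ne_zero.2 h1, unitInterval.lt_one_iff_ne_one.2 h2⟩

lemma qu_map (P : Measure ℝ) [IsProbabilityMeasure P] : volume.map (qu P) = P := ext_of_Iic _ _ fun t => by
  rw [map_apply (qu_meas P) measurableSet_Iic, measure_congr (s := qu P ⁻¹' Iic t) (t := Iic ⟨cdf P t, cdf_nonneg P t, cdf_le_one P t⟩)
    (qu_ae.mono fun u hu => propext (qu_le P hu t)), unitInterval.volume_Iic, ofReal_cdf]

lemma qu_opt {Ω : Type} [MeasurableSpace Ω] (π : Measure Ω) [IsProbabilityMeasure π] {f g : Ω → ℝ} (hf : Measurable f)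
    (hg : Measurable g) (m : Measure ℝ) [SFinite m] : ∫⁻ u, ∫⁻ s, .ofReal (qu (π.map f) u - qu (π.map g) u - s) ∂m ≤
      ∫⁻ ω, ∫⁻ s, .ofReal (f ω - g ω - s) ∂m ∂π := by
  have := isProbabilityMeasure_map (μ := π) hf.aemeasurable
  have := isProbabilityMeasure_map (μ := π) hg.aemeasurable
  rw [hinge2 _ m (qu_meas _) (qu_meas _), hinge2 _ m hf hg]
  refine lintegral_mono fun w => (measure_mono_ae (t := Ioc ⟨_, cdf_nonneg (π.map f) (w.2 + w.1), cdf_le_one _ _⟩
    ⟨_, cdf_nonneg (π.map g) w.2, cdf_le_one _ _⟩) (qu_ae.mono fun u hu h => ⟨lt_of_not_ge fun c =>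
      h.2.not_ge ((qu_le _ hu _).2 c), (qu_le _ hu _).1 h.1⟩)).trans ?_
  rw [unitInterval.volume_Ioc, ofReal_sub _ (cdf_nonneg _ _), ofReal_cdf, ofReal_cdf, map_apply hf measurableSet_Iic,
    map_apply hg measurableSet_Iic]
  exact le_measure_sdiff.trans (measure_mono fun ω h => ⟨h.1, lt_of_not_ge h.2⟩)

lemma convex (hq : 1 ≤ q) (π : Measure (ℝ × ℝ)) [IsProbabilityMeasure π] :
    ∫⁻ u, .ofReal (|qu π.fst u - qu π.snd u| ^ q) ≤ ∫⁻ z, .ofReal (|z.1 - z.2| ^ q) ∂π := by
  obtain ⟨m, h1, h2⟩ := hinge hq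
  have hm : Measurable fun z : ℝ => ∫⁻ s, .ofReal (z - s) ∂m := Measurable.lintegral_prod_right (by fun_prop)
  simp only [h2, neg_sub]
  rw [lintegral_add_left (hm.fun_comp ((qu_meas _).fun_sub (qu_meas _))), lintegral_add_left (hm.fun_comp (by fun_prop))]
  exact add_le_add (qu_opt π measurable_fst measurable_snd m) (qu_opt π measurable_snd measurable_fst m)

end Pool.Agent.H.MP_ee92c9_pr
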